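import Pool.Agent.R834.Zar.Main

/-!
# Equisingularity strata after blowing up need not be local analytic products

The hypersurface is `V : x y (x - y) (x - t y) + z^5 = 0` in the affine space with coordinates
`(x, y, z, t)`, and `W` is the `t`-axis. Along `W`, `V` is equisingular in the sense of Zariski at
all but finitely many points. In the chart `x = z x'`, `y = z y'` the blowing-up `V^*` of `W` is the
nonsingular hypersurface `z = - x' y' (x' - y') (x' - t y')`, and the part of it lying over `W` is
the family of four concurrent lines `x' y' (x' - y') (x' - t y') = 0`, `z = 0`, whose cross ratio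
`t` varies. Hence this part of the stratum of simple points of `V^*` is not locally an analytic
product over `W`.

The definitions (`Eqs`, `zeros`, `blowup`, `IsSimpleOn`, `LocalProduct`) are in
`Pool.Agent.R834.Zar.Defs`.
-/

set_option autoImplicit false

namespace Pool.Agent.Results.MP_e920bf_ag.NoLocalProduct

open MvPolynomial Pool.Agent.R834.Zar

/-- There are a reduced hypersurface `V : f = 0` in `A^4`, an irreducible subvariety `W` of `V` (the
zeros of `h_1, h_2, h_3`, which generate a prime ideal containing `f`), and a point `Qs` of the
blowing-up `V^*` of `W` (in the chart `y_3 = 1`) which lies over a point `Q` of `W_1 = Eqs(W/V)`,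
such that `Qs` is a simple point of `V^*` and such that the stratum
`S^* = {simple points of V^* lying over W_1}` containing `Qs` has no local analytic product
structure over `W_1` at `Qs`.

(The set of simple points of `V^*` is an equisingularity stratum of `V^*`: apply the third property
of the stratification to `V^*` itself. The statement is local at `Qs`, so that it can be written in
an affine chart of `V^*`.) -/
theorem result : ∃ (f : MvPolynomial (Fin 4) ℂ) (h : Fin 3 → MvPolynomial (Fin 4) ℂ)
    (Qs : (Fin 4 → ℂ) × (Fin 3 → ℂ)),
    Squarefree f ∧ (Ideal.span (Set.range h)).IsPrime ∧ f ∈ Ideal.span (Set.range h) ∧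
    Qs.1 ∈ Eqs f (zeros h) ∧ IsSimpleOn 4 (blowup f h 2) Qs ∧
    ¬ LocalProduct (Eqs f (zeros h))
      {P | IsSimpleOn 4 (blowup f h 2) P ∧ P.1 ∈ Eqs f (zeros h)} Qs :=
  Pool.Agent.R834.Zar.main

end Pool.Agent.Results.MP_e920bf_ag.NoLocalProduct
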